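import Pool.Agent.helper53.PV.SpecF

/-!
Row pvf:FMI: minimality of the extension.
-/

set_option autoImplicit false

open scoped Topology
open MeasureTheory Filter

namespace Pool.Agent.PV

open Pool.Agent.CZ

theorem FMI (hFAP : FAP_stmt) (hFCL : FCL_stmt) (hFID : FID_stmt) (hFFB : FFB_stmt)
    (hFDN : FDN_stmt) : FMI_stmt := by
  intro X₀ Y _ _ _ _ _ _ _ α₀ x₀ f hE hmin p
  have hfree : ∀ n : ℤ, n ≠ 0 → (α₀ ^ n) x₀ ≠ x₀ := hFAP X₀ α₀ hmin x₀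
  have hcl : IsClosed (ESet α₀ x₀ f) := hFCL X₀ Y α₀ x₀ f hE.cont
  haveI : CompactSpace (ESp α₀ x₀ f) := isCompact_iff_compactSpace.1 hcl.isCompact
  obtain ⟨-, -, -, -, -, -, -, hit⟩ := hFID X₀ Y α₀ x₀ f
  obtain ⟨hsec, -⟩ := hFFB X₀ Y α₀ x₀ f
  set C : Set (ESp α₀ x₀ f) := closure (Set.range (fun n : ℤ => (eHom α₀ x₀ f ^ n) p)) with hC
  have hCcl : IsClosed C := isClosed_closure
  have himg : IsClosed ((ePr α₀ x₀ f) '' C) :=
    (hCcl.isCompact.image (ePr α₀ x₀ f).continuous).isClosed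
  have hall : ∀ x : X₀, x ∈ (ePr α₀ x₀ f) '' C := by
    intro x
    have h1 : Set.range (fun n : ℤ => (α₀ ^ n) (ePr α₀ x₀ f p)) ⊆ (ePr α₀ x₀ f) '' C := by
      rintro _ ⟨n, rfl⟩
      exact ⟨(eHom α₀ x₀ f ^ n) p, subset_closure ⟨n, rfl⟩, (hit n p).1⟩
    exact himg.closure_subset_iff.2 h1 (hmin (ePr α₀ x₀ f p) x)
  have hsecC : ∀ x : X₀, (∀ n : ℤ, (α₀ ^ n) x₀ ≠ x) → eSec α₀ x₀ f x ∈ C := by
    intro x hx
    obtain ⟨q, hq, hqx⟩ := hall x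
    have h1 : q = eSec α₀ x₀ f (ePr α₀ x₀ f q) := by
      refine hsec q fun k hk => ?_
      rw [hqx] at hk
      apply hx (-k)
      rw [← hk, zpow_zpow_apply, neg_add_cancel, zpow_zero]
      rfl
    rw [hqx] at h1
    rw [← h1]
    exact hq
  intro q
  show q ∈ C
  rw [← hCcl.closure_eq, mem_closure_iff_nhds]
  intro W hW
  obtain ⟨x, hx, hxW⟩ := hFDN X₀ Y α₀ x₀ f hE hfree q W hW
  exact ⟨eSec α₀ x₀ f x, hxW, hsecC x hx⟩

end Pool.Agent.PV
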