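import Pool.Agent.helper53.PV.SpecF

/-!
Row pvf:FSQ: a sequence off the orbit converging to `x₀`.
-/

set_option autoImplicit false

open scoped Topology
open MeasureTheory Filter

namespace Pool.Agent.PV

open Pool.Agent.CZ

theorem FSQ (hFOF : FOF_stmt) : FSQ_stmt := by
  intro X _ _ _ _ α hα x₀
  letI : MetricSpace X := TopologicalSpace.metrizableSpaceMetric X
  have h : ∀ r : ℝ, ∃ y : X, (0 < r → dist y x₀ < r) ∧ ∀ n : ℤ, (α ^ n) x₀ ≠ y := by
    intro r
    by_cases hr : 0 < r
    · obtain ⟨y, hy, h2⟩ := hFOF X α hα x₀ (Metric.ball x₀ r) Metric.isOpen_ball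
        ⟨x₀, Metric.mem_ball_self hr⟩
      exact ⟨y, fun _ => hy, h2⟩
    · obtain ⟨y, hy, h2⟩ := hFOF X α hα x₀ (Metric.ball x₀ 1) Metric.isOpen_ball
        ⟨x₀, Metric.mem_ball_self one_pos⟩
      exact ⟨y, fun h => absurd h hr, h2⟩
  choose F hF1 hF2 using h
  let x : ℕ → X := fun j =>
    Nat.rec (F 1) (fun j y => F (min (dist y x₀) (1 / ((j : ℝ) + 2)))) j
  have hx0 : x 0 = F 1 := rfl
  have hxs : ∀ j : ℕ, x (j + 1) = F (min (dist (x j) x₀) (1 / ((j : ℝ) + 2))) := fun j => rfl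
  have hne : ∀ (j : ℕ) (n : ℤ), (α ^ n) x₀ ≠ x j := by
    intro j n
    cases j with
    | zero => rw [hx0]; exact hF2 _ n
    | succ j => rw [hxs]; exact hF2 _ n
  have hpos : ∀ j : ℕ, 0 < dist (x j) x₀ := by
    intro j
    refine dist_pos.2 fun h => hne j 0 ?_
    rw [zpow_zero]
    exact h.symm
  have hstep : ∀ j : ℕ, dist (x (j + 1)) x₀ < min (dist (x j) x₀) (1 / ((j : ℝ) + 2)) := by
    intro j
    rw [hxs]
    exact hF1 _ (lt_min (hpos j) (by positivity))
  have hanti : StrictAnti fun j : ℕ => dist (x j) x₀ :=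
    strictAnti_nat_of_succ_lt fun j => (hstep j).trans_le (min_le_left _ _)
  refine ⟨x, ?_, ?_, hne⟩
  · intro i j hij
    apply hanti.injective
    show dist (x i) x₀ = dist (x j) x₀
    rw [hij]
  · rw [tendsto_iff_dist_tendsto_zero]
    refine squeeze_zero (fun j => dist_nonneg) (fun j => ?_)
      (tendsto_one_div_add_atTop_nhds_zero_nat (𝕜 := ℝ))
    cases j with
    | zero =>
      rw [hx0]
      have := hF1 1 one_pos
      simpa using this.le
    | succ j =>
      have h1 := ((hstep j).trans_le (min_le_right _ _)).le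
      refine h1.trans (le_of_eq ?_)
      push_cast
      ring

end Pool.Agent.PV
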