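import Pool.Agent.helper53.PV.SpecD

/-!
Row pvd:JNA: the trace on `K₀` of a commutative ring is natural.
-/

set_option autoImplicit false

open scoped Topology
open MeasureTheory Filter

namespace Pool.Agent.PV

open Pool.Agent.CZ

theorem JNA_cls {R S : Type} [CommRing R] [CommRing S] (φ : R →+* S) (p : IdemMat R) :
    trC S (k0map φ (cls p)) = φ (trC R (cls p)) := by
  have h : k0map φ (cls p) = cls (imap φ p) := rfl
  rw [h, trC_cls, trC_cls, map_sum]
  rfl

theorem JNA : JNA_stmt := by
  intro R S _ _ φ z
  induction z using QuotientAddGroup.induction_on with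
  | H w =>
    induction w using FreeAbelianGroup.induction_on with
    | zero =>
      have h : (QuotientAddGroup.mk (0 : FreeAbelianGroup (IdemMat R)) : K0 R) = 0 := rfl
      rw [h, map_zero, map_zero, map_zero, map_zero]
    | of p => exact JNA_cls φ p
    | neg p hp =>
      have h : (QuotientAddGroup.mk (-FreeAbelianGroup.of p) : K0 R) = -(cls p) := rfl
      rw [h, map_neg, map_neg, map_neg, map_neg, JNA_cls]
    | add x y hx hy =>
      have h : (QuotientAddGroup.mk (x + y) : K0 R) =
        QuotientAddGroup.mk x + QuotientAddGroup.mk y := rfl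
      rw [h, map_add, map_add, map_add, map_add, hx, hy]

end Pool.Agent.PV
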