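import Pool.Agent.helper77.PV.SpecC

/-!
Row pv:D0Y: the second boundary map kills the image of `io` and is invariant.
-/

set_option autoImplicit false
set_option linter.unusedVariables false

open scoped Matrix Topology
open Filter

namespace Pool.Agent.PV

open Pool.Agent.CZ

theorem D0Y_cont {B D : Type} [NormedRing B] [NormedAlgebra ℂ B] [NormedRing D]
    [NormedAlgebra ℂ D] (φ : B →ₐ[ℂ] D) (hφ : Continuous φ) :
    Continuous (cmpC UnitAddCircle φ hφ).toRingHom :=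
  ContinuousMap.continuous_postcomp (⟨φ, hφ⟩ : C(B, D))

theorem D0Y_al {B : Type} [NormedRing B] [NormedAlgebra ℂ B] (al : B ≃ₐ[ℂ] B)
    (h : Continuous (al : B →ₐ[ℂ] B)) (h' : Continuous (al.symm : B →ₐ[ℂ] B))
    (x : K0 C(UnitAddCircle, B)) :
    k0a (lal al h h') x = k0map (cmpC UnitAddCircle (al : B →ₐ[ℂ] B) h).toRingHom x := by
  have e : ((lal al h h' : C(UnitAddCircle, B) ≃ₐ[ℂ] C(UnitAddCircle, B)) :
      C(UnitAddCircle, B) →ₐ[ℂ] C(UnitAddCircle, B)).toRingHom =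
      (cmpC UnitAddCircle (al : B →ₐ[ℂ] B) h).toRingHom := RingHom.ext fun _ => rfl
  unfold k0a
  rw [e]

theorem D0Y (hD1P : D1P_stmt) (hBET : BET_stmt) (hBEN : BEN_stmt) (hHON : HON_stmt)
    (hFUN : FUN_stmt) (hK0G : K0G_stmt) : D0Y_stmt := by
  intro B A _ _ _ _ _ _ al io u c hZ d0 hd0
  obtain ⟨h, h', hi, cc, be, dl, de, hZZ, hcc, hbe, hdl, hde, hd⟩ := hd0
  obtain ⟨hk, hinv, -, -⟩ := hD1P C(UnitAddCircle, B) C(UnitAddCircle, A) (lal al h h')
    (cmpC UnitAddCircle io hi) (lu u) cc (D0Y_cont io hi) hZZ dl hdl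
  refine ⟨fun w => ?_, fun ha z => ?_⟩
  · obtain ⟨beB, hbeB⟩ := hBET B
    rw [hd, ← hBEN.1 B A io hi beB be (D0Y_cont io hi) hbeB hbe w, hk, map_zero]
  · rw [hd]
    have h1 := hHON.1 B B (al : B →ₐ[ℂ] B) h ha de de hde hde (dl (be z))
    unfold k1a
    rw [h1, ← D0Y_al al h h', hinv]

end Pool.Agent.PV
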