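import Pool.Agent.helper77.PV.SpecB

/-!
Row pv:D1E: existence of the index homomorphism.
-/

set_option autoImplicit false
set_option linter.unusedVariables false

open scoped Matrix Topology
open Filter

namespace Pool.Agent.PV

open Pool.Agent.CZ

/-- the block diagonal unit -/
def D1E_bd {A : Type} [Ring A] {ι κ : Type} [Fintype ι] [DecidableEq ι] [Fintype κ] [DecidableEq κ]
    (g : (Matrix ι ι A)ˣ) (h : (Matrix κ κ A)ˣ) : (Matrix (ι ⊕ κ) (ι ⊕ κ) A)ˣ where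
  val := Matrix.fromBlocks (g : Matrix ι ι A) 0 0 (h : Matrix κ κ A)
  inv := Matrix.fromBlocks ((g⁻¹ : (Matrix ι ι A)ˣ) : Matrix ι ι A) 0 0
    ((h⁻¹ : (Matrix κ κ A)ˣ) : Matrix κ κ A)
  val_inv := by
    rw [Matrix.fromBlocks_multiply]
    simp only [Matrix.mul_zero, Matrix.zero_mul, add_zero, zero_add, Units.mul_inv]
    exact Matrix.fromBlocks_one
  inv_val := by
    rw [Matrix.fromBlocks_multiply]
    simp only [Matrix.mul_zero, Matrix.zero_mul, add_zero, zero_add, Units.inv_mul]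
    exact Matrix.fromBlocks_one

theorem D1E_htp (hROT : ROT_stmt) {A : Type} [NormedRing A] [NormedAlgebra ℂ A] {ι : Type}
    [Fintype ι] [DecidableEq ι] (g h : (Matrix ι ι A)ˣ) :
    Htp (D1E_bd g h) (D1E_bd (g * h) (1 : (Matrix ι ι A)ˣ)) := by
  obtain ⟨hc, h0, h1, W', -, hW⟩ := hROT A ι (h : Matrix ι ι A)
    ((h⁻¹ : (Matrix ι ι A)ˣ) : Matrix ι ι A) (Units.mul_inv h) (Units.inv_mul h)
  refine ⟨⟨fun t => (D1E_bd g h : Matrix (ι ⊕ ι) (ι ⊕ ι) A) *
    rotW (h : Matrix ι ι A) ((h⁻¹ : (Matrix ι ι A)ˣ) : Matrix ι ι A) (t : ℝ), ?_⟩, ?_, ?_, ?_⟩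
  · exact continuous_const.mul (hc.comp continuous_subtype_val)
  · intro t
    refine (Units.isUnit (D1E_bd g h)).mul ?_
    exact ⟨⟨_, W' t, (hW t).2, (hW t).1⟩, rfl⟩
  · change (D1E_bd g h : Matrix (ι ⊕ ι) (ι ⊕ ι) A) * rotW (h : Matrix ι ι A)
      ((h⁻¹ : (Matrix ι ι A)ˣ) : Matrix ι ι A) ((0 : unitInterval) : ℝ) = _
    rw [show ((0 : unitInterval) : ℝ) = 0 from rfl, h0, mul_one]
  · change (D1E_bd g h : Matrix (ι ⊕ ι) (ι ⊕ ι) A) * rotW (h : Matrix ι ι A)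
      ((h⁻¹ : (Matrix ι ι A)ˣ) : Matrix ι ι A) ((1 : unitInterval) : ℝ) = _
    rw [show ((1 : unitInterval) : ℝ) = 1 from rfl, h1]
    change Matrix.fromBlocks (g : Matrix ι ι A) 0 0 (h : Matrix ι ι A) *
      Matrix.fromBlocks (h : Matrix ι ι A) 0 0 ((h⁻¹ : (Matrix ι ι A)ˣ) : Matrix ι ι A) =
      Matrix.fromBlocks ((g * h : (Matrix ι ι A)ˣ) : Matrix ι ι A) 0 0
        ((1 : (Matrix ι ι A)ˣ) : Matrix ι ι A)
    rw [Matrix.fromBlocks_multiply]
    simp only [Matrix.mul_zero, Matrix.zero_mul, add_zero, zero_add, Units.mul_inv,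
      Units.val_mul, Units.val_one]

theorem D1E_rix {A : Type} [Ring A] {ι κ : Type} [Fintype ι] [DecidableEq ι] [Fintype κ]
    [DecidableEq κ] (f : ι ≃ κ) (k : (Matrix κ κ A)ˣ) : rix f (rix f.symm k) = k := by
  apply Units.ext
  change ((k : Matrix κ κ A).submatrix f.symm.symm f.symm.symm).submatrix f.symm f.symm = _
  rw [Matrix.submatrix_submatrix]
  simp

theorem D1E (hINE : INE_stmt) (hINU : INU_stmt) (hINH : INH_stmt) (hINB : INB_stmt)
    (hIN0 : IN0_stmt) (hROT : ROT_stmt) (hK1R : K1R_stmt) : D1E_stmt := by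
  intro B A _ _ _ _ _ _ al io u c hZ
  have hE := hINE B A al io u c hZ
  have hU := hINU B A al io u c hZ
  have hH := hINH B A al io u c hZ
  have hB := hINB B A al io u c hZ
  have h0 := hIN0 B A al io u c hZ
  choose ind hind using fun p : InvMat A => hE (Fin p.n) p.g
  have hker : AddSubgroup.closure (K1Rel A) ≤ (FreeAbelianGroup.lift ind).ker := by
    rw [AddSubgroup.closure_le]
    rintro z (⟨n, g, h, rfl⟩ | ⟨n, m, g, h, k, hk, rfl⟩ | ⟨n, g, h, hgh, rfl⟩)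
    · change FreeAbelianGroup.lift ind _ = 0
      rw [map_sub, map_sub, FreeAbelianGroup.lift_apply_of, FreeAbelianGroup.lift_apply_of,
        FreeAbelianGroup.lift_apply_of, sub_sub, sub_eq_zero]
      have h1 : IsInd al io u c (1 : (Matrix (Fin n) (Fin n) A)ˣ) 0 := by
        have h2 := (h0 (Fin n)).1 1
        have h3 : umap io.toRingHom (1 : (Matrix (Fin n) (Fin n) B)ˣ) = 1 := map_one _
        rw [h3] at h2
        exact h2
      have h2 := (hB (Fin n) (Fin n)).1 (g * h) 1 (D1E_bd (g * h) 1) (ind ⟨n, g * h⟩) 0 rfl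
        (hind ⟨n, g * h⟩) h1
      have h3 := (hB (Fin n) (Fin n)).1 g h (D1E_bd g h) (ind ⟨n, g⟩) (ind ⟨n, h⟩) rfl
        (hind ⟨n, g⟩) (hind ⟨n, h⟩)
      have h4 := hH (Fin n ⊕ Fin n) (D1E_bd g h) (D1E_bd (g * h) 1) _ (D1E_htp hROT g h) h3
      have h5 := hU (Fin n ⊕ Fin n) (D1E_bd (g * h) 1) _ _ h2 h4
      rw [add_zero] at h5
      exact h5
    · change FreeAbelianGroup.lift ind _ = 0
      rw [map_sub, map_sub, FreeAbelianGroup.lift_apply_of, FreeAbelianGroup.lift_apply_of,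
        FreeAbelianGroup.lift_apply_of, sub_sub, sub_eq_zero]
      have hk' : ((rix finSumFinEquiv.symm k : (Matrix (Fin n ⊕ Fin m) (Fin n ⊕ Fin m) A)ˣ) :
          Matrix (Fin n ⊕ Fin m) (Fin n ⊕ Fin m) A) =
          Matrix.fromBlocks (g : Matrix (Fin n) (Fin n) A) 0 0 (h : Matrix (Fin m) (Fin m) A) := by
        change (k : Matrix (Fin (n + m)) (Fin (n + m)) A).submatrix finSumFinEquiv.symm.symm
          finSumFinEquiv.symm.symm = _
        rw [hk]
        unfold dsum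
        rw [Matrix.submatrix_submatrix]
        simp
      have h2 := (hB (Fin n) (Fin m)).1 g h _ (ind ⟨n, g⟩) (ind ⟨m, h⟩) hk'
        (hind ⟨n, g⟩) (hind ⟨m, h⟩)
      have h3 := (hB (Fin n ⊕ Fin m) (Fin (n + m))).2 finSumFinEquiv _ _ h2
      rw [D1E_rix] at h3
      exact hU (Fin (n + m)) k _ _ (hind ⟨n + m, k⟩) h3
    · change FreeAbelianGroup.lift ind _ = 0
      rw [map_sub, FreeAbelianGroup.lift_apply_of, FreeAbelianGroup.lift_apply_of, sub_eq_zero]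
      exact hU (Fin n) h _ _ (hH (Fin n) g h _ hgh (hind ⟨n, g⟩)) (hind ⟨n, h⟩)
  refine ⟨QuotientAddGroup.lift _ (FreeAbelianGroup.lift ind) hker, ?_⟩
  intro ι _ _ g z hz
  change FreeAbelianGroup.lift ind (FreeAbelianGroup.of
    ⟨Fintype.card ι, rix (Fintype.equivFin ι) g⟩) = z
  rw [FreeAbelianGroup.lift_apply_of]
  exact hU (Fin (Fintype.card ι)) _ _ _ (hind ⟨Fintype.card ι, rix (Fintype.equivFin ι) g⟩)
    ((hB ι (Fin (Fintype.card ι))).2 (Fintype.equivFin ι) g z hz)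

end Pool.Agent.PV
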